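import Pool.Agent.H474R2.PG.Final
import Pool.Agent.W468.CFProd

set_option autoImplicit false

/-!
# Long strings of composite values of an admissible quadratic polynomial
-/

namespace Pool.Agent.L0h41.Quad

open Polynomial Finset

/-- the quadratic polynomial -/
noncomputable def quad (a b c : ℤ) : ℤ[X] := C a * X ^ 2 + C b * X + C c

lemma quad_eval (a b c m : ℤ) : (quad a b c).eval m = a * m ^ 2 + b * m + c := by
  unfold quad
  simp

lemma quad_deg (a b c : ℤ) (ha : a ≠ 0) : (quad a b c).natDegree = 2 := natDegree_quadratic ha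

lemma quad_lead (a b c : ℤ) (ha : a ≠ 0) : (quad a b c).leadingCoeff = a := leadingCoeff_quadratic ha

lemma quad_prim (a b c : ℤ) (hg : Int.gcd (Int.gcd a b : ℤ) c = 1) :
    (quad a b c).IsPrimitive := by
  rw [isPrimitive_iff_isUnit_of_C_dvd]
  intro r hr
  have h := (C_dvd_iff_dvd_coeff r (quad a b c)).1 hr
  have h0 := h 0
  have h1 := h 1
  have h2 := h 2
  unfold quad at h0 h1 h2
  simp only [coeff_add, coeff_C_mul, coeff_X_pow, coeff_X, coeff_C] at h0 h1 h2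
  norm_num at h0 h1 h2
  have h3 : r ∣ (Int.gcd a b : ℤ) := Int.dvd_coe_gcd h2 h1
  have h4 : r ∣ (Int.gcd (Int.gcd a b : ℤ) c : ℤ) := Int.dvd_coe_gcd h3 h0
  rw [hg] at h4
  exact isUnit_of_dvd_one (by exact_mod_cast h4)

lemma quad_irr (a b c : ℤ) (ha : a ≠ 0) (hg : Int.gcd (Int.gcd a b : ℤ) c = 1)
    (hD : ¬ IsSquare (b ^ 2 - 4 * a * c)) : Irreducible (quad a b c) := by
  rw [Polynomial.IsPrimitive.Int.irreducible_iff_irreducible_map_cast (quad_prim a b c hg)]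
  have hmap : (quad a b c).map (Int.castRingHom ℚ) = C (a : ℚ) * X ^ 2 + C (b : ℚ) * X + C (c : ℚ) := by
    unfold quad
    simp
  rw [hmap]
  have ha' : (a : ℚ) ≠ 0 := by exact_mod_cast ha
  have hdeg := natDegree_quadratic (b := (b : ℚ)) (c := (c : ℚ)) ha'
  apply Polynomial.irreducible_of_degree_le_three_of_not_isRoot
  · rw [hdeg]
    decide
  · intro x hx
    rw [IsRoot.def] at hx
    simp only [eval_add, eval_mul, eval_C, eval_pow, eval_X] at hx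
    have h3 : (2 * a * x + b) ^ 2 = (b : ℚ) ^ 2 - 4 * a * c := by
      linear_combination 4 * (a : ℚ) * hx
    apply hD
    have h4 : IsSquare (((b ^ 2 - 4 * a * c : ℤ) : ℚ)) := by
      refine ⟨2 * a * x + b, ?_⟩
      push_cast
      rw [← h3]
      ring
    exact Rat.isSquare_intCast_iff.1 h4

/-- `π_f(N)` -/
def piF (a b c : ℤ) (N : ℕ) : ℕ :=
  ((Icc 1 N).filter (fun t : ℕ => (a * (t : ℤ) ^ 2 + b * t + c).toNat.Prime)).card

/-- long strings -/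
theorem strings (a b c : ℤ) (ha : 0 < a) (hg : Int.gcd (Int.gcd a b : ℤ) c = 1)
    (hD : ¬ IsSquare (b ^ 2 - 4 * a * c)) : ∃ κ : ℝ, 0 < κ ∧ ∃ Y₀ : ℝ, ∀ Y : ℝ, Y₀ ≤ Y → ∀ x : ℕ, Y ≤ x →
    ∃ n : ℕ, x < n ∧ (n : ℝ) + κ * Real.log Y * Real.log (Real.log Y) ≤ x + Y ∧
      ∀ k : ℕ, (k : ℝ) ≤ κ * Real.log Y * Real.log (Real.log Y) →
        ∃ p : ℕ, p.Prime ∧ (p : ℝ) ≤ Y ^ (1 / 10 : ℝ) ∧
          (p : ℤ) ∣ a * ((n + k : ℕ) : ℤ) ^ 2 + b * ((n + k : ℕ) : ℤ) + c ∧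
          (p : ℤ) < a * ((n + k : ℕ) : ℤ) ^ 2 + b * ((n + k : ℕ) : ℤ) + c := by
  obtain ⟨κ, hκ, Y₀, h⟩ := Pool.Agent.H474R2.PG.composite_strings (quad a b c) (quad_irr a b c ha.ne' hg hD)
    (by rw [quad_deg _ _ _ ha.ne']; norm_num) (by rw [quad_lead _ _ _ ha.ne']; exact ha)
  refine ⟨κ, hκ, Y₀, fun Y hY M hM => ?_⟩
  obtain ⟨x, hx, hx2, hk⟩ := h Y hY M (by exact_mod_cast hM)
  lift x to ℕ using (by have := Int.natCast_nonneg M; omega)
  refine ⟨x, by exact_mod_cast hx, by exact_mod_cast hx2, fun k hk2 => ?_⟩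
  obtain ⟨p, hp1, hp2, hp3, hp4⟩ := hk k hk2
  rw [quad_eval] at hp3 hp4
  refine ⟨p, hp1, hp2, ?_, ?_⟩
  · push_cast; exact hp3
  · push_cast; exact hp4

lemma piF_eq_of_gap {a b c : ℤ} {u v : ℕ} (huv : u ≤ v)
    (h : ∀ n, u < n → n ≤ v → ¬ (a * (n : ℤ) ^ 2 + b * n + c).toNat.Prime) : piF a b c v = piF a b c u := by
  unfold piF
  congr 1
  ext n
  simp only [mem_filter, mem_Icc]
  constructor
  · rintro ⟨h1, h3⟩
    refine ⟨⟨h1.1, ?_⟩, h3⟩
    by_contra h4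
    exact h n (by omega) h1.2 h3
  · rintro ⟨h1, h3⟩
    exact ⟨⟨h1.1, by omega⟩, h3⟩

lemma sum_steps (M : ℕ → ℝ) (δ X : ℝ) (u v : ℕ) (huv : u ≤ v) (hM : ∀ n, u ≤ n → n < v → δ / X ≤ M (n + 1) - M n) :
    δ / X * ((v : ℝ) - u) ≤ M v - M u := by
  induction v, huv using Nat.le_induction with
  | base => simp
  | succ v huv ih =>
    have h1 := ih (fun n hn1 hn2 => hM n hn1 (by omega))
    have h2 := hM v huv (by omega)
    push_cast
    linarith

/-- **The error term for an arbitrary main term with the right increments.** -/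
theorem omega_gen (a b c : ℤ) (ha : 0 < a) (hg : Int.gcd (Int.gcd a b : ℤ) c = 1)
    (hD : ¬ IsSquare (b ^ 2 - 4 * a * c)) : ∃ κ : ℝ, 0 < κ ∧ ∃ Y₀ : ℝ, ∀ (Y : ℝ) (x : ℕ), Y₀ ≤ Y → Y ≤ x →
    ∀ (δ : ℝ) (M : ℕ → ℝ), 0 ≤ δ → (∀ n : ℕ, x ≤ n → (n : ℝ) + 1 ≤ x + Y → δ / Real.log x ≤ M (n + 1) - M n) →
    ∃ N : ℕ, x ≤ N ∧ (N : ℝ) ≤ x + Y ∧
      κ * δ * (Real.log Y / Real.log x) * Real.log (Real.log Y) ≤ |(piF a b c N : ℝ) - M N| := by
  obtain ⟨κ, hκ, Y₀, h⟩ := strings a b c ha hg hD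
  refine ⟨κ / 2, by positivity, max Y₀ 3, fun Y x hY hYx δ M hδ hM => ?_⟩
  have hY3 : (3 : ℝ) ≤ Y := (le_max_right _ _).trans hY
  obtain ⟨y, hy1, hy2, hy3⟩ := h Y ((le_max_left _ _).trans hY) x hYx
  have hlogY : 1 < Real.log Y := by
    rw [Real.lt_log_iff_exp_lt (by linarith)]
    linarith [Real.exp_one_lt_d9]
  have hllY : 0 < Real.log (Real.log Y) := Real.log_pos hlogY
  obtain ⟨H, hH⟩ : ∃ H : ℝ, H = κ * Real.log Y * Real.log (Real.log Y) := ⟨_, rfl⟩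
  rw [← hH] at hy2 hy3
  have hH0 : 0 < H := by rw [hH]; positivity
  have hx3 : (3 : ℝ) ≤ x := hY3.trans hYx
  have hlx : 0 < Real.log x := Real.log_pos (by linarith)
  obtain ⟨K, hK⟩ : ∃ K : ℕ, K = ⌊H⌋₊ := ⟨_, rfl⟩
  have hK1 : (K : ℝ) ≤ H := by rw [hK]; exact Nat.floor_le hH0.le
  have hK2 : H < K + 1 := by rw [hK]; exact Nat.lt_floor_add_one H
  have hPab : piF a b c (y + K) = piF a b c (y - 1) := by
    apply piF_eq_of_gap (by omega)
    intro n hn1 hn2 hp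
    have h2 : n - y ≤ K := by omega
    have h3 : ((n - y : ℕ) : ℝ) ≤ K := by exact_mod_cast h2
    obtain ⟨p, p1, -, p3, p4⟩ := hy3 (n - y) (by linarith)
    have h1 : y + (n - y) = n := by omega
    rw [h1] at p3 p4
    obtain ⟨m, hm⟩ : ∃ m : ℕ, (m : ℤ) = a * (n : ℤ) ^ 2 + b * n + c :=
      ⟨(a * (n : ℤ) ^ 2 + b * n + c).toNat, Int.toNat_of_nonneg (by linarith [Int.natCast_nonneg p])⟩
    rw [← hm] at hp p3 p4
    rw [Int.toNat_natCast] at hp
    have q1 : p ∣ m := by exact_mod_cast p3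
    have q2 : p < m := by exact_mod_cast p4
    rcases (Nat.dvd_prime hp).1 q1 with q3 | q3
    · exact p1.one_lt.ne' q3
    · omega
  have hya : ((y - 1 : ℕ) : ℝ) = y - 1 := by
    rw [Nat.cast_sub (by omega)]; simp
  have hyx : x ≤ y - 1 := by omega
  have hyb : ((y + K : ℕ) : ℝ) ≤ x + Y := by
    push_cast; linarith
  have hst := sum_steps M δ (Real.log x) (y - 1) (y + K) (by omega) (by
    intro n hn1 hn2
    apply hM n (by omega)
    have h4 : n + 1 ≤ y + K := by omega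
    have h5 : ((n + 1 : ℕ) : ℝ) ≤ ((y + K : ℕ) : ℝ) := by exact_mod_cast h4
    push_cast at h5 hyb
    linarith)
  have hd : H ≤ ((y + K : ℕ) : ℝ) - ((y - 1 : ℕ) : ℝ) := by
    rw [hya]; push_cast; linarith
  have hst2 : δ / Real.log x * H ≤ M (y + K) - M (y - 1) :=
    (mul_le_mul_of_nonneg_left hd (by positivity)).trans hst
  have htar : κ / 2 * δ * (Real.log Y / Real.log x) * Real.log (Real.log Y) = δ / Real.log x * H / 2 := by
    rw [hH]; ring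
  rw [htar]
  by_cases hcase : δ / Real.log x * H / 2 ≤ |(piF a b c (y + K) : ℝ) - M (y + K)|
  · exact ⟨y + K, by omega, hyb, hcase⟩
  · refine ⟨y - 1, hyx, ?_, ?_⟩
    · rw [hya]; linarith
    · push Not at hcase
      have h1 := neg_abs_le ((piF a b c (y + K) : ℝ) - M (y + K))
      have h2 := le_abs_self ((piF a b c (y - 1) : ℝ) - M (y - 1))
      rw [hPab] at h1 hcase
      linarith

end Pool.Agent.L0h41.Quad
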